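import Mathlib

set_option autoImplicit false

/-!
# MP_52d248_al: a conditionally flat localization of groups which is not an epireflection

The localization `L G = ℚ ⊗ G_ab` (the reflection of groups onto the vector spaces over `ℚ`) is
right exact, because abelianization and `ℚ ⊗ -` are; hence it is conditionally flat. The map
`ℤ → L ℤ = ℚ` is not surjective, so `L` is not an epireflection.
-/

namespace Pool.Agent.Results.MP_52d248_al.RationalAbelianization

open CategoryTheory TensorProduct

universe u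

/-- `(L, η)` is a localization functor on the category of groups: `L(η_G)` and `η_{LG}` are equal
isomorphisms `LG → LLG` for every group `G`. -/
structure IsLocalizationFunctor (L : GrpCat.{u} ⥤ GrpCat.{u}) (η : 𝟭 GrpCat.{u} ⟶ L) : Prop where
  eq : ∀ G : GrpCat.{u}, L.map (η.app G) = η.app (L.obj G)
  iso : ∀ G : GrpCat.{u}, IsIso (η.app (L.obj G))

/-- `L` is an epireflection: `η_G : G → LG` is surjective for every group `G`. -/
def IsEpireflection (L : GrpCat.{u} ⥤ GrpCat.{u}) (η : 𝟭 GrpCat.{u} ⟶ L) : Prop :=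
  ∀ G : GrpCat.{u}, Function.Surjective (η.app G)

/-- `1 → N → E → G → 1` is a short exact sequence. -/
structure ShortExact {N E G : GrpCat.{u}} (i : N ⟶ E) (p : E ⟶ G) : Prop where
  inj : Function.Injective i
  surj : Function.Surjective p
  exact : i.hom.range = p.hom.ker

/-- The pullback `E ×_G H = {(x, h) | p x = f h}`. -/
def pullback {E G H : GrpCat.{u}} (p : E ⟶ G) (f : H ⟶ G) : GrpCat.{u} :=
  GrpCat.of ((p.hom.comp (MonoidHom.fst E H)).eqLocus (f.hom.comp (MonoidHom.snd E H)))

/-- The map `N → E ×_G H`, `n ↦ (i n, 1)`. -/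
def pullbackIncl {N E G H : GrpCat.{u}} (i : N ⟶ E) (p : E ⟶ G) (f : H ⟶ G)
    (h : ShortExact i p) : N ⟶ pullback p f :=
  GrpCat.ofHom (((MonoidHom.inl E H).comp i.hom).codRestrict _ fun n => by
    have h1 : i.hom n ∈ p.hom.ker := h.exact ▸ ⟨n, rfl⟩
    change p.hom (i.hom n) = f.hom 1
    rw [h1, map_one])

/-- The map `E ×_G H → H`, `(x, h) ↦ h`. -/
def pullbackProj {E G H : GrpCat.{u}} (p : E ⟶ G) (f : H ⟶ G) : pullback p f ⟶ H :=
  GrpCat.ofHom ((MonoidHom.snd E H).comp (Subgroup.subtype _))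

/-- `L` is conditionally flat: if `1 → N → E → G → 1` is an `L`-flat extension, that is, an
extension such that `1 → LN → LE → LG → 1` is a short exact sequence, then for every homomorphism
`f : H → G` the pulled-back extension `1 → N → E ×_G H → H → 1` is also `L`-flat. -/
def ConditionallyFlat (L : GrpCat.{u} ⥤ GrpCat.{u}) : Prop :=
  ∀ (N E G H : GrpCat.{u}) (i : N ⟶ E) (p : E ⟶ G) (f : H ⟶ G) (h : ShortExact i p),
    ShortExact (L.map i) (L.map p) →
      ShortExact (pullbackIncl i p f h) (pullbackProj p f) ∧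
        ShortExact (L.map (pullbackIncl i p f h)) (L.map (pullbackProj p f))

section

/-- the vector space -/
abbrev V (G : Type u) [Group G] : Type u := ℚ ⊗[ℤ] Additive (Abelianization G)

/-- the class of an element -/
def cl {G : Type u} [Group G] (g : G) : Additive (Abelianization G) :=
  Additive.ofMul (Abelianization.of g)

lemma cl_mul {G : Type u} [Group G] (g h : G) : cl (g * h) = cl g + cl h := by
  simp [cl]

lemma cl_one {G : Type u} [Group G] : cl (1 : G) = 0 := by
  simp [cl]

lemma cl_surj {G : Type u} [Group G] (x : Additive (Abelianization G)) : ∃ g : G, cl g = x :=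
  ⟨(QuotientGroup.mk_surjective (Additive.toMul x)).choose,
    (QuotientGroup.mk_surjective (Additive.toMul x)).choose_spec⟩

/-- abelianization of a homomorphism as a linear map -/
def abl {G H : Type u} [Group G] [Group H] (f : G →* H) :
    Additive (Abelianization G) →ₗ[ℤ] Additive (Abelianization H) :=
  (MonoidHom.toAdditive (Abelianization.map f)).toIntLinearMap

lemma abl_cl {G H : Type u} [Group G] [Group H] (f : G →* H) (g : G) : abl f (cl g) = cl (f g) :=
  rfl

/-- the map of vector spaces -/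
noncomputable def vm {G H : Type u} [Group G] [Group H] (f : G →* H) : V G →ₗ[ℤ] V H :=
  LinearMap.lTensor ℚ (abl f)

lemma vm_tmul {G H : Type u} [Group G] [Group H] (f : G →* H) (q : ℚ) (g : G) :
    vm f (q ⊗ₜ cl g) = q ⊗ₜ cl (f g) := rfl

lemma V_ext {G : Type u} [Group G] {A : Type*} [AddCommGroup A] {a b : V G →+ A}
    (h : ∀ (q : ℚ) (g : G), a (q ⊗ₜ cl g) = b (q ⊗ₜ cl g)) (x : V G) : a x = b x := by
  induction x using TensorProduct.induction_on with
  | zero => rw [map_zero, map_zero]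
  | tmul q y =>
    obtain ⟨g, rfl⟩ := cl_surj y
    exact h q g
  | add x y hx hy => rw [map_add, map_add, hx, hy]

lemma vm_id (G : Type u) [Group G] (x : V G) : vm (MonoidHom.id G) x = x :=
  V_ext (a := (vm (MonoidHom.id G)).toAddMonoidHom) (b := AddMonoidHom.id _)
    (fun _ _ => rfl) x

lemma vm_comp {G H K : Type u} [Group G] [Group H] [Group K] (f : G →* H) (g : H →* K) (x : V G) :
    vm (g.comp f) x = vm g (vm f x) :=
  V_ext (a := (vm (g.comp f)).toAddMonoidHom)
    (b := (vm g).toAddMonoidHom.comp (vm f).toAddMonoidHom) (fun _ _ => rfl) x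

/-- the map of groups -/
noncomputable def vg {G H : Type u} [Group G] [Group H] (f : G →* H) :
    Multiplicative (V G) →* Multiplicative (V H) :=
  AddMonoidHom.toMultiplicative (vm f).toAddMonoidHom

lemma vg_apply {G H : Type u} [Group G] [Group H] (f : G →* H) (x : V G) :
    vg f (Multiplicative.ofAdd x) = Multiplicative.ofAdd (vm f x) := rfl

lemma vg_id (G : Type u) [Group G] : vg (MonoidHom.id G) = MonoidHom.id _ := by
  refine MonoidHom.ext fun x => ?_
  exact congrArg Multiplicative.ofAdd (vm_id G (Multiplicative.toAdd x))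

lemma vg_comp {G H K : Type u} [Group G] [Group H] [Group K] (f : G →* H) (g : H →* K) :
    vg (g.comp f) = (vg g).comp (vg f) := by
  refine MonoidHom.ext fun x => ?_
  exact congrArg Multiplicative.ofAdd (vm_comp f g (Multiplicative.toAdd x))

/-- the functor -/
noncomputable def L : GrpCat.{u} ⥤ GrpCat.{u} where
  obj G := GrpCat.of (Multiplicative (V G))
  map f := GrpCat.ofHom (vg f.hom)
  map_id G := GrpCat.hom_ext (vg_id G)
  map_comp f g := GrpCat.hom_ext (vg_comp f.hom g.hom)

/-- the unit as a homomorphism -/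
noncomputable def et (G : Type u) [Group G] : G →* Multiplicative (V G) where
  toFun g := Multiplicative.ofAdd ((1 : ℚ) ⊗ₜ cl g)
  map_one' := by
    rw [cl_one, TensorProduct.tmul_zero]
    rfl
  map_mul' g h := by
    rw [cl_mul, TensorProduct.tmul_add]
    rfl

lemma et_nat {G H : Type u} [Group G] [Group H] (f : G →* H) :
    (et H).comp f = (vg f).comp (et G) := rfl

/-- the unit -/
noncomputable def eta : 𝟭 GrpCat.{u} ⟶ L.{u} where
  app G := GrpCat.ofHom (et G)
  naturality _ _ f := GrpCat.hom_ext (et_nat f.hom)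

/-! ### The unit at a vector space -/

section vs

variable {W : Type u} [AddCommGroup W] [Module ℚ W]

/-- the inverse of the unit -/
noncomputable def inv : V (Multiplicative W) →+ W :=
  (TensorProduct.lift (LinearMap.mk₂ ℤ
    (fun (q : ℚ) (x : Additive (Abelianization (Multiplicative W))) =>
      q • Multiplicative.toAdd (Abelianization.lift (MonoidHom.id (Multiplicative W))
        (Additive.toMul x)))
    (fun a b x => add_smul a b _)
    (fun n a x => by rw [zsmul_eq_mul, mul_smul, ← Int.cast_smul_eq_zsmul ℚ])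
    (fun a x y => by rw [toMul_add, map_mul, toAdd_mul, smul_add])
    (fun n a x => by rw [toMul_zsmul, map_zpow, toAdd_zpow, smul_comm]))).toAddMonoidHom

lemma inv_tmul (q : ℚ) (w : Multiplicative W) :
    inv (q ⊗ₜ cl w) = q • Multiplicative.toAdd w := rfl

lemma inv_et (w : Multiplicative W) :
    Multiplicative.ofAdd (inv (Multiplicative.toAdd (et (Multiplicative W) w))) = w := by
  change Multiplicative.ofAdd ((1 : ℚ) • Multiplicative.toAdd w) = w
  rw [one_smul]
  rfl

lemma tmul_cl (q : ℚ) (w : W) :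
    (q ⊗ₜ cl (Multiplicative.ofAdd w) : V (Multiplicative W)) =
      (1 : ℚ) ⊗ₜ cl (Multiplicative.ofAdd (q • w)) := by
  have hz : ∀ (n : ℤ) (w : W), cl (Multiplicative.ofAdd (n • w)) =
      n • cl (Multiplicative.ofAdd w) := fun n w => by
    unfold cl
    rw [ofAdd_zsmul, map_zpow, ofMul_zpow]
  have e0 : ((q.den : ℤ) : ℚ) * q = (q.num : ℤ) := by
    rw [mul_comm]
    exact_mod_cast Rat.mul_den_eq_num q
  have e1 : (q.den : ℤ) • q = (q.num : ℤ) • (1 : ℚ) := by
    rw [zsmul_eq_mul, zsmul_eq_mul, mul_one, e0]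
  have e2 : (q.den : ℤ) • q • w = (q.num : ℤ) • w := by
    rw [← Int.cast_smul_eq_zsmul ℚ, smul_smul, ← Int.cast_smul_eq_zsmul ℚ q.num, e0]
  have h1 : (q.den : ℤ) • (q ⊗ₜ cl (Multiplicative.ofAdd w) : V (Multiplicative W)) =
      (q.den : ℤ) • ((1 : ℚ) ⊗ₜ cl (Multiplicative.ofAdd (q • w))) :=
    calc (q.den : ℤ) • (q ⊗ₜ cl (Multiplicative.ofAdd w) : V (Multiplicative W))
        = ((q.den : ℤ) • q) ⊗ₜ cl (Multiplicative.ofAdd w) := TensorProduct.smul_tmul' _ _ _
      _ = ((q.num : ℤ) • (1 : ℚ)) ⊗ₜ cl (Multiplicative.ofAdd w) := by rw [e1]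
      _ = (1 : ℚ) ⊗ₜ ((q.num : ℤ) • cl (Multiplicative.ofAdd w)) := TensorProduct.smul_tmul _ _ _
      _ = (1 : ℚ) ⊗ₜ ((q.den : ℤ) • cl (Multiplicative.ofAdd (q • w))) := by rw [← hz, ← hz, e2]
      _ = (q.den : ℤ) • ((1 : ℚ) ⊗ₜ cl (Multiplicative.ofAdd (q • w))) :=
        TensorProduct.tmul_smul _ _ _
  have h2 := congrArg (fun v : V (Multiplicative W) => ((q.den : ℚ)⁻¹ : ℚ) • v) h1
  have h3 : ((q.den : ℤ) : ℚ) ≠ 0 := by exact_mod_cast q.den_nz
  simpa only [← Int.cast_smul_eq_zsmul ℚ, smul_smul, Int.cast_natCast,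
    inv_mul_cancel₀ (by exact_mod_cast q.den_nz : (q.den : ℚ) ≠ 0), one_smul] using h2

lemma et_inv (x : V (Multiplicative W)) :
    Multiplicative.toAdd (et (Multiplicative W) (Multiplicative.ofAdd (inv x))) = x := by
  refine V_ext (a := (AddMonoidHom.toMultiplicative.symm (et (Multiplicative W))).comp inv)
    (b := AddMonoidHom.id _) (fun q g => ?_) x
  exact (tmul_cl q (Multiplicative.toAdd g)).symm

end vs

lemma vg_et (G : Type u) [Group G] : vg (et G) = et (Multiplicative (V G)) := by
  refine MonoidHom.ext fun x => ?_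
  refine congrArg Multiplicative.ofAdd (V_ext (a := (vm (et G)).toAddMonoidHom)
    (b := AddMonoidHom.toMultiplicative.symm (et (Multiplicative (V G)))) (fun q g => ?_)
    (Multiplicative.toAdd x))
  change (q ⊗ₜ cl (Multiplicative.ofAdd ((1 : ℚ) ⊗ₜ cl g)) : V (Multiplicative (V G))) =
    (1 : ℚ) ⊗ₜ cl (Multiplicative.ofAdd (q ⊗ₜ cl g))
  rw [tmul_cl, TensorProduct.smul_tmul', smul_eq_mul, mul_one]

theorem isLoc : IsLocalizationFunctor L.{u} eta where
  eq G := GrpCat.hom_ext (vg_et G)
  iso G := ⟨⟨GrpCat.ofHom (AddMonoidHom.toMultiplicative (inv (W := V G))),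
    GrpCat.hom_ext (MonoidHom.ext fun w => inv_et (W := V G) w),
    GrpCat.hom_ext (MonoidHom.ext fun x => congrArg Multiplicative.ofAdd
      (et_inv (W := V G) (Multiplicative.toAdd x)))⟩⟩

/-! ### Right exactness -/

lemma cl_eq_zero {G : Type u} [Group G] {g : G} : cl g = 0 ↔ g ∈ commutator G :=
  QuotientGroup.eq_one_iff g

lemma abl_exact {N E G : Type u} [Group N] [Group E] [Group G] {i : N →* E} {p : E →* G}
    (hp : Function.Surjective p) (hex : i.range = p.ker) : Function.Exact (abl i) (abl p) := by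
  intro y
  obtain ⟨x, rfl⟩ := cl_surj y
  rw [abl_cl, cl_eq_zero]
  constructor
  · intro h
    have h1 : commutator G = (commutator E).map p := by
      rw [commutator_def, commutator_def, Subgroup.map_commutator, ← MonoidHom.range_eq_map,
        MonoidHom.range_eq_top.2 hp]
    rw [h1] at h
    obtain ⟨c, hc, hcx⟩ := h
    have h2 : x * c⁻¹ ∈ i.range := by
      rw [hex, MonoidHom.mem_ker, map_mul, map_inv, hcx, mul_inv_cancel]
    obtain ⟨n, hn⟩ := h2
    refine ⟨cl n, ?_⟩
    rw [abl_cl, hn, cl_mul]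
    have h3 : cl c⁻¹ = 0 := cl_eq_zero.2 ((commutator E).inv_mem hc)
    rw [h3, add_zero]
  · rintro ⟨z, hz⟩
    obtain ⟨n, rfl⟩ := cl_surj z
    rw [abl_cl] at hz
    have h1 : abl p (cl (i n)) = 0 := by
      rw [abl_cl]
      have h2 : p (i n) = 1 := by
        rw [← MonoidHom.mem_ker, ← hex]
        exact ⟨n, rfl⟩
      rw [h2, cl_one]
    rw [hz, abl_cl] at h1
    exact cl_eq_zero.1 h1

lemma abl_surj {E G : Type u} [Group E] [Group G] {p : E →* G} (hp : Function.Surjective p) :
    Function.Surjective (abl p) := by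
  intro y
  obtain ⟨x, rfl⟩ := cl_surj y
  obtain ⟨z, rfl⟩ := hp x
  exact ⟨cl z, abl_cl p z⟩

/-- `L` is right exact -/
lemma right_exact {N E G : GrpCat.{u}} {i : N ⟶ E} {p : E ⟶ G} (hp : Function.Surjective p)
    (hex : i.hom.range = p.hom.ker) (hinj : Function.Injective (L.map i)) :
    ShortExact (L.map i) (L.map p) := by
  have h1 : Function.Exact (vm i.hom) (vm p.hom) :=
    lTensor_exact ℚ (abl_exact hp hex) (abl_surj hp)
  have h2 : Function.Surjective (vm p.hom) := LinearMap.lTensor_surjective ℚ (abl_surj hp)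
  refine ⟨hinj, fun y => ?_, ?_⟩
  · obtain ⟨x, hx⟩ := h2 (Multiplicative.toAdd y)
    exact ⟨Multiplicative.ofAdd x, congrArg Multiplicative.ofAdd hx⟩
  · ext x
    constructor
    · rintro ⟨y, rfl⟩
      have := (h1 (vm i.hom (Multiplicative.toAdd y))).2 ⟨_, rfl⟩
      exact congrArg Multiplicative.ofAdd this
    · intro hx
      obtain ⟨y, hy⟩ := (h1 (Multiplicative.toAdd x)).1 (congrArg Multiplicative.toAdd hx)
      exact ⟨Multiplicative.ofAdd y, congrArg Multiplicative.ofAdd hy⟩

/-- the map `E ×_G H → E` -/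
def pullbackFst {E G H : GrpCat.{u}} (p : E ⟶ G) (f : H ⟶ G) : pullback p f ⟶ E :=
  GrpCat.ofHom ((MonoidHom.fst E H).comp (Subgroup.subtype _))

lemma pb_comm {E G H : GrpCat.{u}} (p : E ⟶ G) (f : H ⟶ G) (z : pullback p f) :
    p (pullbackFst p f z) = f (pullbackProj p f z) :=
  (show ((p.hom.comp (MonoidHom.fst E H)).eqLocus (f.hom.comp (MonoidHom.snd E H)) : Type u)
    from z).2

lemma pb_ext {E G H : GrpCat.{u}} (p : E ⟶ G) (f : H ⟶ G) {z w : pullback p f}
    (h1 : pullbackFst p f z = pullbackFst p f w) (h2 : pullbackProj p f z = pullbackProj p f w) :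
    z = w :=
  Subtype.ext (Prod.ext h1 h2)

/-- the pulled-back extension -/
lemma pull_exact {N E G H : GrpCat.{u}} (i : N ⟶ E) (p : E ⟶ G) (f : H ⟶ G)
    (h : ShortExact i p) : ShortExact (pullbackIncl i p f h) (pullbackProj p f) := by
  refine ⟨fun a b hab => ?_, fun y => ?_, ?_⟩
  · have h1 : pullbackFst p f (pullbackIncl i p f h a) = pullbackFst p f (pullbackIncl i p f h b) :=
      congrArg (pullbackFst p f) hab
    exact h.inj h1
  · obtain ⟨x, hx⟩ := h.surj (f y)
    exact ⟨⟨(x, y), hx⟩, rfl⟩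
  · ext z
    constructor
    · rintro ⟨n, rfl⟩
      rfl
    · intro hz
      have h1 : pullbackProj p f z = 1 := hz
      have h2 := pb_comm p f z
      rw [h1, map_one] at h2
      have h3 : pullbackFst p f z ∈ i.hom.range := by
        rw [h.exact]
        exact h2
      obtain ⟨n, hn⟩ := h3
      exact ⟨n, pb_ext p f hn h1.symm⟩

theorem condFlat : ConditionallyFlat L.{u} := by
  intro N E G H i p f h hL
  have h1 := pull_exact i p f h
  refine ⟨h1, right_exact h1.surj h1.exact ?_⟩
  have h2 : pullbackIncl i p f h ≫ pullbackFst p f = i := rfl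
  have h3 : L.map (pullbackIncl i p f h) ≫ L.map (pullbackFst p f) = L.map i := by
    rw [← L.map_comp, h2]
  intro a b hab
  refine hL.inj ?_
  rw [← h3, GrpCat.comp_apply, GrpCat.comp_apply, hab]

/-- `ℤ → ℚ` is not surjective -/
theorem notEpi : ¬ IsEpireflection L.{u} eta := by
  intro h
  let Z : Type u := ULift.{u} (Multiplicative ℤ)
  let d : Z →* Multiplicative ℤ := MulEquiv.ulift.toMonoidHom
  let F : V Z →+ ℚ := (TensorProduct.lift (LinearMap.mk₂ ℤ
    (fun (q : ℚ) (x : Additive (Abelianization Z)) =>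
      q * (Multiplicative.toAdd (Abelianization.lift d (Additive.toMul x)) : ℤ))
    (fun a b x => add_mul a b _)
    (fun n a x => by rw [zsmul_eq_mul, zsmul_eq_mul, mul_assoc])
    (fun a x y => by rw [toMul_add, map_mul, toAdd_mul, Int.cast_add, mul_add])
    (fun n a x => by
      rw [toMul_zsmul, map_zpow, toAdd_zpow, smul_eq_mul, Int.cast_mul, zsmul_eq_mul]
      ring))).toAddMonoidHom
  obtain ⟨g, hg⟩ := h (GrpCat.of Z)
    (Multiplicative.ofAdd ((1 / 2 : ℚ) ⊗ₜ cl (ULift.up (Multiplicative.ofAdd 1) : Z)))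
  have h1 : ((1 : ℚ) ⊗ₜ cl (g : Z) : V Z) =
      (1 / 2 : ℚ) ⊗ₜ cl (ULift.up (Multiplicative.ofAdd 1) : Z) := congrArg Multiplicative.toAdd hg
  have h2 : (1 : ℚ) * (Multiplicative.toAdd (d g) : ℤ) = 1 / 2 * ((1 : ℤ) : ℚ) :=
    congrArg F h1
  rw [one_mul, Int.cast_one, mul_one] at h2
  have h3 : ((2 * Multiplicative.toAdd (d g) : ℤ) : ℚ) = ((1 : ℤ) : ℚ) := by
    push_cast
    rw [h2]
    norm_num
  have h4 : 2 * Multiplicative.toAdd (d g) = (1 : ℤ) := by exact_mod_cast h3
  omega

end

/-- **There is a conditionally flat localization functor on the category of groups which is not an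
epireflection.** -/
theorem result : ∃ (L : GrpCat.{u} ⥤ GrpCat.{u}) (η : 𝟭 GrpCat.{u} ⟶ L),
    IsLocalizationFunctor L η ∧ ConditionallyFlat L ∧ ¬ IsEpireflection L η :=
  ⟨L, eta, isLoc, condFlat, notEpi⟩

end Pool.Agent.Results.MP_52d248_al.RationalAbelianization
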